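import Mathlib
import Pool.Agent.helper56.SGE.Comb

/-!
# Forced orientations in a simultaneous embedding of two triangulations (module O1)
-/

set_option autoImplicit false
set_option linter.unusedSectionVars false

namespace Pool.Agent.helper10.SgeO1

open Pool.Agent.helper56.SGE

/-! ### Planar geometry -/

lemma orient_rot (a b c : Pt) : orient b c a = orient a b c := by
  simp only [orient]; ring

lemma orient_swap (a b c : Pt) : orient b a c = - orient a b c := by
  simp only [orient]; ring

lemma orient_add (a b c d : Pt) :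
    orient a b c = orient a b d + orient b c d + orient c a d := by
  simp only [orient]; ring

/-- strictly inside a triangle -/
def InTri (a b c z : Pt) : Prop :=
  0 < orient a b c * orient a b z ∧ 0 < orient a b c * orient b c z ∧
    0 < orient a b c * orient c a z

lemma InTri.rot {a b c z : Pt} (h : InTri a b c z) : InTri b c a z := by
  refine ⟨?_, ?_, ?_⟩
  · rw [orient_rot]; exact h.2.1
  · rw [orient_rot]; exact h.2.2
  · rw [orient_rot]; exact h.1

lemma inTri_rot {a b c z : Pt} : InTri b c a z ↔ InTri a b c z :=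
  ⟨fun h => h.rot.rot, fun h => h.rot⟩

lemma mem_seg_of {a b c z : Pt} (h0 : orient a b c ≠ 0) (h1 : orient a b z = 0)
    (h2 : 0 ≤ orient a b c * orient b c z) (h3 : 0 ≤ orient a b c * orient c a z) :
    z ∈ segment ℝ a b := by
  have hadd := orient_add a b c z
  rw [h1, zero_add] at hadd
  have hD : 0 < orient a b c * orient a b c := mul_self_pos.2 h0
  refine ⟨orient b c z / orient a b c, orient c a z / orient a b c, ?_, ?_, ?_, ?_⟩
  · have : orient b c z / orient a b c = (orient a b c * orient b c z) /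
        (orient a b c * orient a b c) := by field_simp
    rw [this]; positivity
  · have : orient c a z / orient a b c = (orient a b c * orient c a z) /
        (orient a b c * orient a b c) := by field_simp
    rw [this]; positivity
  · rw [← add_div, ← hadd, div_self h0]
  · have e1 : orient b c z * a.1 + orient c a z * b.1 + orient a b z * c.1 =
        orient a b c * z.1 := by simp only [orient]; ring
    have e2 : orient b c z * a.2 + orient c a z * b.2 + orient a b z * c.2 =
        orient a b c * z.2 := by simp only [orient]; ring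
    rw [h1, zero_mul, add_zero] at e1 e2
    ext
    · simp only [Prod.fst_add, Prod.smul_fst, smul_eq_mul]
      field_simp
      linarith
    · simp only [Prod.snd_add, Prod.smul_snd, smul_eq_mul]
      field_simp
      linarith

/-- a point of the closed triangle that is not strictly inside is on a side -/
lemma mem_side_of {a b c z : Pt} (h0 : orient a b c ≠ 0)
    (h1 : 0 ≤ orient a b c * orient a b z)
    (h2 : 0 ≤ orient a b c * orient b c z) (h3 : 0 ≤ orient a b c * orient c a z)
    (h : ¬ InTri a b c z) :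
    z ∈ segment ℝ a b ∨ z ∈ segment ℝ b c ∨ z ∈ segment ℝ c a := by
  by_cases e1 : orient a b z = 0
  · exact Or.inl (mem_seg_of h0 e1 h2 h3)
  by_cases e2 : orient b c z = 0
  · refine Or.inr (Or.inl (mem_seg_of (c := a) (by rwa [orient_rot]) e2 ?_ ?_))
    · rw [orient_rot]; exact h3
    · rw [orient_rot]; exact h1
  by_cases e3 : orient c a z = 0
  · have hr : orient c a b = orient a b c := by rw [orient_rot, orient_rot]
    refine Or.inr (Or.inr (mem_seg_of (c := b) (by rwa [hr]) e3 ?_ ?_))
    · rw [hr]; exact h1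
    · rw [hr]; exact h2
  · exact absurd ⟨lt_of_le_of_ne h1 (by positivity), lt_of_le_of_ne h2 (by positivity),
      lt_of_le_of_ne h3 (by positivity)⟩ h

lemma orient_line (a b z w : Pt) (t : ℝ) :
    orient a b (z + t • (w - z)) = (1 - t) * orient a b z + t * orient a b w := by
  simp only [orient, Prod.fst_add, Prod.snd_add, Prod.smul_fst, Prod.smul_snd, Prod.fst_sub,
    Prod.snd_sub, smul_eq_mul]
  ring

/-- a segment that leaves a triangle meets a side -/
lemma leave {a b c z w : Pt} (hz : InTri a b c z) (hw : ¬ InTri a b c w) :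
    ∃ x ∈ segment ℝ z w, x ∈ segment ℝ a b ∨ x ∈ segment ℝ b c ∨ x ∈ segment ℝ c a := by
  have h0 : orient a b c ≠ 0 := by
    intro h; have := hz.1; rw [h] at this; simp at this
  set D := orient a b c with hD
  let g : ℝ → ℝ := fun t => min ((1 - t) * (D * orient a b z) + t * (D * orient a b w))
    (min ((1 - t) * (D * orient b c z) + t * (D * orient b c w))
      ((1 - t) * (D * orient c a z) + t * (D * orient c a w)))
  have hg : ContinuousOn g (Set.Icc 0 1) := by
    apply Continuous.continuousOn
    fun_prop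
  have hg0 : 0 ≤ g 0 := by
    simp only [g, sub_zero, one_mul, zero_mul, add_zero]
    exact le_min hz.1.le (le_min hz.2.1.le hz.2.2.le)
  have hg1 : g 1 ≤ 0 := by
    simp only [g, sub_self, one_mul, zero_mul, zero_add]
    by_contra hcon
    push Not at hcon
    rw [lt_min_iff, lt_min_iff] at hcon
    exact hw hcon
  obtain ⟨t, ht, hgt⟩ := intermediate_value_Icc' (by norm_num) hg ⟨hg1, hg0⟩
  refine ⟨z + t • (w - z), ?_, ?_⟩
  · rw [segment_eq_image']
    exact ⟨t, ht, rfl⟩
  · have k1 : D * orient a b (z + t • (w - z)) =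
        (1 - t) * (D * orient a b z) + t * (D * orient a b w) := by rw [orient_line]; ring
    have k2 : D * orient b c (z + t • (w - z)) =
        (1 - t) * (D * orient b c z) + t * (D * orient b c w) := by rw [orient_line]; ring
    have k3 : D * orient c a (z + t • (w - z)) =
        (1 - t) * (D * orient c a z) + t * (D * orient c a w) := by rw [orient_line]; ring
    have hmin : g t = min (D * orient a b (z + t • (w - z)))
        (min (D * orient b c (z + t • (w - z))) (D * orient c a (z + t • (w - z)))) := by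
      simp only [g, k1, k2, k3]
    rw [hmin] at hgt
    have q := hgt.ge
    rw [le_min_iff, le_min_iff] at q
    refine mem_side_of h0 q.1 q.2.1 q.2.2 ?_
    intro hin
    have : 0 < min (D * orient a b (z + t • (w - z)))
        (min (D * orient b c (z + t • (w - z))) (D * orient c a (z + t • (w - z)))) :=
      lt_min hin.1 (lt_min hin.2.1 hin.2.2)
    rw [hgt] at this
    exact lt_irrefl _ this

/-- two segments meet -/
lemma meet {a b c d : Pt} (h0 : orient c d a ≠ orient c d b)
    (h1 : 0 ≤ (orient c d a - orient c d b) * orient c d a)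
    (h2 : 0 ≤ -((orient c d a - orient c d b) * orient c d b))
    (h3 : 0 ≤ (orient c d a - orient c d b) * orient a b d)
    (h4 : 0 ≤ -((orient c d a - orient c d b) * orient a b c)) :
    ∃ z, z ∈ segment ℝ a b ∧ z ∈ segment ℝ c d := by
  set D := orient c d a - orient c d b with hD
  have hD0 : D ≠ 0 := sub_ne_zero.2 h0
  have hDD : 0 < D * D := mul_self_pos.2 hD0
  have hid : D = orient a b d - orient a b c := by simp only [hD, orient]; ring
  refine ⟨(-(orient c d b) / D) • a + (orient c d a / D) • b,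
    ⟨-(orient c d b) / D, orient c d a / D, ?_, ?_, ?_, rfl⟩,
    ⟨orient a b d / D, -(orient a b c) / D, ?_, ?_, ?_, ?_⟩⟩
  · have : -(orient c d b) / D = -(D * orient c d b) / (D * D) := by field_simp
    rw [this]; positivity
  · have : orient c d a / D = (D * orient c d a) / (D * D) := by field_simp
    rw [this]; positivity
  · rw [← add_div, div_eq_one_iff_eq hD0, hD]; ring
  · have : orient a b d / D = (D * orient a b d) / (D * D) := by field_simp
    rw [this]; positivity
  · have : -(orient a b c) / D = -(D * orient a b c) / (D * D) := by field_simp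
    rw [this]; positivity
  · rw [← add_div, div_eq_one_iff_eq hD0, hid]; ring
  · ext
    · simp only [Prod.fst_add, Prod.smul_fst, smul_eq_mul]
      field_simp
      simp only [orient]
      ring
    · simp only [Prod.snd_add, Prod.smul_snd, smul_eq_mul]
      field_simp
      simp only [orient]
      ring

/-- three distinct collinear points: one is between the other two -/
lemma collinear_between {a b c : Pt} (h : orient a b c = 0) (hab : a ≠ b) :
    c ∈ segment ℝ a b ∨ a ∈ segment ℝ b c ∨ b ∈ segment ℝ c a := by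
  -- c = a + t (b - a)
  have hN : 0 < (b.1 - a.1) * (b.1 - a.1) + (b.2 - a.2) * (b.2 - a.2) := by
    rcases eq_or_ne a.1 b.1 with h1 | h1
    · have h2 : a.2 ≠ b.2 := fun h2 => hab (Prod.ext h1 h2)
      have : 0 < (b.2 - a.2) * (b.2 - a.2) := by
        have : b.2 - a.2 ≠ 0 := sub_ne_zero.2 h2.symm
        exact mul_self_pos.2 this
      have h3 : 0 ≤ (b.1 - a.1) * (b.1 - a.1) := mul_self_nonneg _
      linarith
    · have : 0 < (b.1 - a.1) * (b.1 - a.1) := by
        have : b.1 - a.1 ≠ 0 := sub_ne_zero.2 h1.symm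
        exact mul_self_pos.2 this
      have h3 : 0 ≤ (b.2 - a.2) * (b.2 - a.2) := mul_self_nonneg _
      linarith
  set N := (b.1 - a.1) * (b.1 - a.1) + (b.2 - a.2) * (b.2 - a.2) with hNdef
  set t := ((c.1 - a.1) * (b.1 - a.1) + (c.2 - a.2) * (b.2 - a.2)) / N with ht
  have hc : c = a + t • (b - a) := by
    simp only [orient] at h
    have ht' : t * N = (c.1 - a.1) * (b.1 - a.1) + (c.2 - a.2) * (b.2 - a.2) := by
      rw [ht]; field_simp
    have hN0 : N ≠ 0 := hN.ne'
    ext
    · simp only [Prod.fst_add, Prod.smul_fst, Prod.fst_sub, smul_eq_mul]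
      apply mul_left_cancel₀ hN0
      have : N * (a.1 + t * (b.1 - a.1)) = N * a.1 + (t * N) * (b.1 - a.1) := by ring
      rw [this, ht', hNdef]
      linear_combination (-(b.2 - a.2)) * h
    · simp only [Prod.snd_add, Prod.smul_snd, Prod.snd_sub, smul_eq_mul]
      apply mul_left_cancel₀ hN0
      have : N * (a.2 + t * (b.2 - a.2)) = N * a.2 + (t * N) * (b.2 - a.2) := by ring
      rw [this, ht', hNdef]
      linear_combination (b.1 - a.1) * h
  rcases lt_or_ge t 0 with h0 | h0
  · -- a between b and c
    right; left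
    refine ⟨-t / (1 - t), 1 / (1 - t), ?_, ?_, ?_, ?_⟩
    · apply div_nonneg <;> linarith
    · apply div_nonneg <;> linarith
    · rw [← add_div, div_eq_one_iff_eq (by linarith)]; ring
    · have h1 : (1 - t) ≠ 0 := by linarith
      rw [hc]
      ext
      · simp only [Prod.fst_add, Prod.smul_fst, Prod.fst_sub, smul_eq_mul]
        field_simp; ring
      · simp only [Prod.snd_add, Prod.smul_snd, Prod.snd_sub, smul_eq_mul]
        field_simp; ring
  · rcases le_or_gt t 1 with h1 | h1
    · left
      rw [segment_eq_image']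
      exact ⟨t, ⟨h0, h1⟩, hc.symm⟩
    · right; right
      refine ⟨1 / t, (t - 1) / t, ?_, ?_, ?_, ?_⟩
      · apply div_nonneg <;> linarith
      · apply div_nonneg <;> linarith
      · rw [← add_div, div_eq_one_iff_eq (by linarith)]; ring
      · have h1 : t ≠ 0 := by linarith
        rw [hc]
        ext
        · simp only [Prod.fst_add, Prod.smul_fst, Prod.fst_sub, smul_eq_mul]
          field_simp; ring
        · simp only [Prod.snd_add, Prod.smul_snd, Prod.snd_sub, smul_eq_mul]
          field_simp; ring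

/-! ### Drawings of one triangulation -/

variable {α : Type*} [DecidableEq α]

/-- A drawing of one triangulation without crossings. -/
structure Dr (S : Finset α) (o : Face α) (F : List (Face α)) (p : α → Pt) : Prop where
  inj : Set.InjOn p S
  clear : ∀ u ∈ S, ∀ v ∈ S, ∀ w ∈ S, trAdj o F u v → w ≠ u → w ≠ v →
    p w ∉ segment ℝ (p u) (p v)
  noCross : ∀ u ∈ S, ∀ v ∈ S, ∀ u' ∈ S, ∀ v' ∈ S, trAdj o F u v → trAdj o F u' v' →
    s(u, v) ≠ s(u', v') → ¬ Cross p u v u' v'

variable {S : Finset α} {o : Face α} {F : List (Face α)} {p : α → Pt}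

lemma Dr.apart (D : Dr S o F p) {u v u' v' : α} (hu : u ∈ S) (hv : v ∈ S) (hu' : u' ∈ S)
    (hv' : v' ∈ S) (h : trAdj o F u v) (h' : trAdj o F u' v') (h1 : u ≠ u') (h2 : u ≠ v')
    (h3 : v ≠ u') (h4 : v ≠ v') {z : Pt} (hz : z ∈ segment ℝ (p u) (p v))
    (hz' : z ∈ segment ℝ (p u') (p v')) : False := by
  refine D.noCross u hu v hv u' hu' v' hv' h h' ?_ ⟨z, hz, hz', ?_⟩
  · intro e
    rw [Sym2.eq_iff] at e
    rcases e with e | e
    · exact h1 e.1
    · exact h2 e.1
  · rintro ⟨w, hw, hw', -⟩
    rcases hw with rfl | rfl <;> rcases hw' with e | e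
    · exact h1 e
    · exact h2 e
    · exact h3 e
    · exact h4 e

/-- `x` is the third corner of the face `f` whose directed edge `(u, v)` is. -/
def Third (f : Face α) (u v x : α) : Prop :=
  f = (u, v, x) ∨ f = (x, u, v) ∨ f = (v, x, u)

lemma exists_third {f : Face α} {e : α × α} (he : e ∈ f.dE) : ∃ x, Third f e.1 e.2 x := by
  simp only [Face.dE, List.mem_cons, List.not_mem_nil, or_false] at he
  rcases he with rfl | rfl | rfl
  · exact ⟨f.2.2, Or.inl rfl⟩
  · exact ⟨f.1, Or.inr (Or.inl rfl)⟩
  · exact ⟨f.2.1, Or.inr (Or.inr rfl)⟩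

/-- the orientation of a face -/
noncomputable def fo (p : α → Pt) (f : Face α) : ℝ := orient (p f.1) (p f.2.1) (p f.2.2)

/-- strictly inside a face -/
def InF (p : α → Pt) (f : Face α) (z : Pt) : Prop := InTri (p f.1) (p f.2.1) (p f.2.2) z

lemma Third.fo {f : Face α} {u v x : α} (h : Third f u v x) :
    fo p f = orient (p u) (p v) (p x) := by
  rcases h with rfl | rfl | rfl
  · rfl
  · exact (orient_rot _ _ _).symm
  · exact orient_rot _ _ _

lemma Third.inF {f : Face α} {u v x : α} (h : Third f u v x) (z : Pt) :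
    InF p f z ↔ InTri (p u) (p v) (p x) z := by
  rcases h with rfl | rfl | rfl
  · rfl
  · show InTri (p x) (p u) (p v) z ↔ _
    exact inTri_rot.symm
  · show InTri (p v) (p x) (p u) z ↔ _
    exact inTri_rot

lemma Third.verts {f : Face α} {u v x : α} (h : Third f u v x) (y : α) :
    y ∈ f.verts ↔ y = u ∨ y = v ∨ y = x := by
  rcases h with rfl | rfl | rfl <;>
    simp only [Face.verts, Finset.mem_insert, Finset.mem_singleton] <;> tauto

lemma Third.ne {f : Face α} {u v x : α} (h : Third f u v x)
    (hne : f.1 ≠ f.2.1 ∧ f.2.1 ≠ f.2.2 ∧ f.2.2 ≠ f.1) : u ≠ v ∧ v ≠ x ∧ x ≠ u := by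
  rcases h with rfl | rfl | rfl
  · exact hne
  · exact ⟨hne.2.1, hne.2.2, hne.1⟩
  · exact ⟨hne.2.2, hne.1, hne.2.1⟩

lemma adj_of {f : Face α} (hf : f ∈ o :: F) {u v : α} (hu : u ∈ f.verts) (hv : v ∈ f.verts)
    (h : u ≠ v) : trAdj o F u v := ⟨h, f, hf, hu, hv⟩

/-- faces are non-degenerate -/
lemma Dr.nondeg (D : Dr S o F p) (hS : Sphere S o F) {f : Face α} (hf : f ∈ o :: F) :
    fo p f ≠ 0 := by
  intro h0
  obtain ⟨a, b, c⟩ := f
  have hne := hS.ne _ hf
  have hsub := hS.sub _ hf
  have ha : a ∈ Face.verts (a, b, c) := by simp [Face.verts]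
  have hb : b ∈ Face.verts (a, b, c) := by simp [Face.verts]
  have hc : c ∈ Face.verts (a, b, c) := by simp [Face.verts]
  have hab : p a ≠ p b := fun e => hne.1 (D.inj (hsub ha) (hsub hb) e)
  rcases collinear_between h0 hab with h | h | h
  · exact D.clear a (hsub ha) b (hsub hb) c (hsub hc) (adj_of hf ha hb hne.1) hne.2.2
      hne.2.1.symm h
  · exact D.clear b (hsub hb) c (hsub hc) a (hsub ha) (adj_of hf hb hc hne.2.1) hne.1
      hne.2.2.symm h
  · exact D.clear c (hsub hc) a (hsub ha) b (hsub hb) (adj_of hf hc ha hne.2.2) hne.2.1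
      hne.1.symm h

/-- adjacent vertices outside a face are on the same side of it -/
lemma Dr.inF_of_adj (D : Dr S o F p) (hS : Sphere S o F) {f : Face α} (hf : f ∈ o :: F)
    {u v : α} (hu : u ∈ S) (hv : v ∈ S) (huf : u ∉ f.verts) (hvf : v ∉ f.verts)
    (h : trAdj o F u v) (hin : InF p f (p u)) : InF p f (p v) := by
  by_contra hcon
  obtain ⟨a, b, c⟩ := f
  have hne := hS.ne _ hf
  have hsub := hS.sub _ hf
  have ha : a ∈ Face.verts (a, b, c) := by simp [Face.verts]
  have hb : b ∈ Face.verts (a, b, c) := by simp [Face.verts]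
  have hc : c ∈ Face.verts (a, b, c) := by simp [Face.verts]
  have n1 : ∀ w ∈ Face.verts (a, b, c), u ≠ w := fun w hw e => huf (e ▸ hw)
  have n2 : ∀ w ∈ Face.verts (a, b, c), v ≠ w := fun w hw e => hvf (e ▸ hw)
  obtain ⟨x, hx, h1 | h1 | h1⟩ := leave hin hcon
  · exact D.apart hu hv (hsub ha) (hsub hb) h (adj_of hf ha hb hne.1) (n1 a ha) (n1 b hb)
      (n2 a ha) (n2 b hb) hx h1
  · exact D.apart hu hv (hsub hb) (hsub hc) h (adj_of hf hb hc hne.2.1) (n1 b hb) (n1 c hc)
      (n2 b hb) (n2 c hc) hx h1
  · exact D.apart hu hv (hsub hc) (hsub ha) h (adj_of hf hc ha hne.2.2) (n1 c hc) (n1 a ha)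
      (n2 c hc) (n2 a ha) hx h1

/-- all other vertices are inside -/
def Full (S : Finset α) (p : α → Pt) (f : Face α) : Prop :=
  ∀ v ∈ S, v ∉ f.verts → InF p f (p v)

/-- all other vertices are outside -/
def Empt (S : Finset α) (p : α → Pt) (f : Face α) : Prop :=
  ∀ v ∈ S, v ∉ f.verts → ¬ InF p f (p v)

lemma Dr.full_or_empt (D : Dr S o F p) (hS : Sphere S o F) {f : Face α} (hf : f ∈ o :: F) :
    Full S p f ∨ Empt S p f := by
  by_cases hE : Empt S p f
  · exact Or.inr hE
  left
  unfold Empt at hE
  push Not at hE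
  obtain ⟨u, hu, huf, hin⟩ := hE
  intro v hv hvf
  have key := hS.nonsep f hf u hu v hv huf hvf
  clear hv hvf
  have : (InF p f (p v) ∧ v ∈ S) := by
    induction key with
    | refl => exact ⟨hin, hu⟩
    | tail _ hbc ih =>
      rename_i b c _
      obtain ⟨hb, hc, hadj⟩ := hbc
      have hcS : c ∈ S := by
        obtain ⟨-, g, hg, -, hcg⟩ := hadj
        exact hS.sub g hg hcg
      exact ⟨D.inF_of_adj hS hf ih.2 hcS hb hc hadj ih.1, hcS⟩
  exact this.1

/-- there are vertices outside a face -/
lemma exists_not_mem (hS : Sphere S o F) (f : Face α) : ∃ v ∈ S, v ∉ f.verts := by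
  by_contra hcon
  push Not at hcon
  obtain ⟨v, hv, hvo⟩ := hS.inner
  have h1 : S ⊆ f.verts := fun w hw => hcon w hw
  have h2 : f.verts.card ≤ 3 := by
    unfold Face.verts
    exact Finset.card_le_three
  have h3 : (insert v o.verts) ⊆ S := by
    intro w hw
    rw [Finset.mem_insert] at hw
    rcases hw with rfl | hw
    · exact hv
    · exact hS.sub o (by simp) hw
  have h4 : (insert v o.verts).card = 4 := by
    rw [Finset.card_insert_of_notMem hvo]
    have hne := hS.ne o (by simp)
    have : o.verts.card = 3 := by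
      unfold Face.verts
      rw [Finset.card_eq_three]
      exact ⟨o.1, o.2.1, o.2.2, hne.1, hne.2.2.symm, hne.2.1, rfl⟩
    rw [this]
  have := Finset.card_le_card (h3.trans h1)
  omega

lemma not_full_and_empt (hS : Sphere S o F) {f : Face α} (h1 : Full S p f)
    (h2 : Empt S p f) : False := by
  obtain ⟨v, hv, hvf⟩ := exists_not_mem hS f
  exact h2 v hv hvf (h1 v hv hvf)

/-- Two faces with the common edge `uv`, third corners `x`, `y`, whose triangles contain no
further vertices: `x` and `y` are on different sides. -/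
lemma Dr.opposite (D : Dr S o F p) (hS : Sphere S o F) {u v x y : α} {f g : Face α}
    (hf : f ∈ o :: F) (hg : g ∈ o :: F)
    (hfv : ∀ z, z ∈ f.verts ↔ z = u ∨ z = v ∨ z = x)
    (hgv : ∀ z, z ∈ g.verts ↔ z = u ∨ z = v ∨ z = y)
    (huv : u ≠ v) (hux : u ≠ x) (hvx : v ≠ x) (huy : u ≠ y) (hvy : v ≠ y) (hxy : x ≠ y)
    (h1 : ¬ InTri (p u) (p v) (p x) (p y)) (h2 : ¬ InTri (p u) (p v) (p y) (p x)) :
    orient (p u) (p v) (p x) * orient (p u) (p v) (p y) ≤ 0 := by
  have uf : u ∈ f.verts := (hfv u).2 (Or.inl rfl)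
  have vf : v ∈ f.verts := (hfv v).2 (Or.inr (Or.inl rfl))
  have xf : x ∈ f.verts := (hfv x).2 (Or.inr (Or.inr rfl))
  have ug : u ∈ g.verts := (hgv u).2 (Or.inl rfl)
  have vg : v ∈ g.verts := (hgv v).2 (Or.inr (Or.inl rfl))
  have yg : y ∈ g.verts := (hgv y).2 (Or.inr (Or.inr rfl))
  have uS := hS.sub f hf uf
  have vS := hS.sub f hf vf
  have xS := hS.sub f hf xf
  have yS := hS.sub g hg yg
  by_contra hcon
  push Not at hcon
  set A := orient (p u) (p v) (p x) with hA
  set B := orient (p u) (p v) (p y) with hB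
  set P := orient (p v) (p x) (p y) with hP
  set Q := orient (p x) (p u) (p y) with hQ
  have hadd : A = B + P + Q := orient_add _ _ _ _
  have hA0 : A ≠ 0 := by rintro h; rw [h] at hcon; simp at hcon
  have hB0 : B ≠ 0 := by rintro h; rw [h] at hcon; simp at hcon
  -- conditions
  have c1 : A * P ≤ 0 ∨ A * Q ≤ 0 := by
    by_contra hc
    push Not at hc
    exact h1 ⟨hcon, hc.1, hc.2⟩
  have c2 : 0 ≤ B * P ∨ 0 ≤ B * Q := by
    by_contra hc
    push Not at hc
    refine h2 ⟨by rw [mul_comm]; exact hcon, ?_, ?_⟩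
    · have : orient (p v) (p y) (p x) = - P := by
        simp only [hP, orient]; ring
      rw [← hB, this]; linarith
    · have : orient (p y) (p u) (p x) = - Q := by
        simp only [hQ, orient]; ring
      rw [← hB, this]; linarith
  have s1 : ∀ t : ℝ, A * t ≤ 0 ↔ B * t ≤ 0 := by
    intro t
    rcases lt_or_gt_of_ne hA0 with ha | ha
    · have hb : B < 0 := by nlinarith
      constructor <;> intro h <;> nlinarith
    · have hb : 0 < B := by nlinarith
      constructor <;> intro h <;> nlinarith
  have cases : (A * P ≤ 0 ∧ 0 ≤ A * Q) ∨ (A * Q ≤ 0 ∧ 0 ≤ A * P) := by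
    have s2 : ∀ t : ℝ, 0 ≤ B * t ↔ 0 ≤ A * t := by
      intro t
      have := s1 (-t)
      constructor
      · intro h
        have : A * (-t) ≤ 0 := this.2 (by linarith)
        linarith
      · intro h
        have : B * (-t) ≤ 0 := this.1 (by linarith)
        linarith
    rw [s2, s2] at c2
    rcases c1 with c1 | c1 <;> rcases c2 with c2 | c2
    · rcases le_total 0 (A * Q) with hq | hq
      · exact Or.inl ⟨c1, hq⟩
      · exact Or.inr ⟨hq, c2⟩
    · exact Or.inl ⟨c1, c2⟩
    · exact Or.inr ⟨c1, c2⟩
    · rcases le_total 0 (A * P) with hq | hq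
      · exact Or.inr ⟨c1, hq⟩
      · exact Or.inl ⟨hq, c2⟩
  rcases cases with ⟨hP', hQ'⟩ | ⟨hQ', hP'⟩
  · -- segments `u y` and `v x` meet
    have e1 : orient (p v) (p x) (p u) = A := by rw [orient_rot]
    have e2 : orient (p v) (p x) (p y) = P := rfl
    have e3 : orient (p u) (p y) (p x) = Q := by rw [hQ]; simp only [orient]; ring
    have e4 : orient (p u) (p y) (p v) = -B := by rw [hB]; simp only [orient]; ring
    have k1 : 0 < (A - P) * A := by nlinarith [mul_self_pos.2 hA0]
    have hAP : A - P ≠ 0 := by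
      intro h; rw [h, zero_mul] at k1; exact lt_irrefl _ k1
    obtain ⟨z, hz, hz'⟩ := meet (a := p u) (b := p y) (c := p v) (d := p x)
      (by rw [e1, e2]; exact sub_ne_zero.1 hAP)
      (by rw [e1, e2]; exact k1.le)
      (by
        rw [e1, e2]
        have : 0 ≤ P * P := mul_self_nonneg _
        nlinarith)
      (by
        rw [e1, e2, e3]
        have hAA := mul_self_pos.2 hA0
        have : 0 ≤ (A - P) * A * (A * Q) := mul_nonneg k1.le hQ'
        have h2 : (A - P) * Q * (A * A) = (A - P) * A * (A * Q) := by ring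
        rw [← h2] at this
        exact nonneg_of_mul_nonneg_left this hAA)
      (by
        rw [e1, e2, e4]
        have hAA := mul_self_pos.2 hA0
        have : 0 ≤ (A - P) * A * (A * B) := mul_nonneg k1.le hcon.le
        have h2 : -((A - P) * -B) * (A * A) = (A - P) * A * (A * B) := by ring
        rw [← h2] at this
        exact nonneg_of_mul_nonneg_left this hAA)
    exact D.apart uS yS vS xS (adj_of hg ug yg huy) (adj_of hf vf xf hvx) huv hux hvy.symm
      hxy.symm hz hz'
  · -- segments `v y` and `u x` meet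
    have e1 : orient (p u) (p x) (p v) = -A := by rw [hA]; simp only [orient]; ring
    have e2 : orient (p u) (p x) (p y) = -Q := by rw [hQ]; simp only [orient]; ring
    have e3 : orient (p v) (p y) (p x) = -P := by rw [hP]; simp only [orient]; ring
    have e4 : orient (p v) (p y) (p u) = B := by rw [orient_rot]
    have k1 : 0 < (A - Q) * A := by nlinarith [mul_self_pos.2 hA0]
    have hAP : A - Q ≠ 0 := by
      intro h; rw [h, zero_mul] at k1; exact lt_irrefl _ k1
    have k2 : (-A - -Q) = -(A - Q) := by ring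
    obtain ⟨z, hz, hz'⟩ := meet (a := p v) (b := p y) (c := p u) (d := p x)
      (by rw [e1, e2]; intro h; apply hAP; linarith)
      (by rw [e1, e2, k2]; nlinarith)
      (by
        rw [e1, e2, k2]
        have : 0 ≤ Q * Q := mul_self_nonneg _
        nlinarith)
      (by
        rw [e1, e2, e3, k2]
        have hAA := mul_self_pos.2 hA0
        have : 0 ≤ (A - Q) * A * (A * P) := mul_nonneg k1.le hP'
        have h2 : -(A - Q) * -P * (A * A) = (A - Q) * A * (A * P) := by ring
        rw [← h2] at this
        exact nonneg_of_mul_nonneg_left this hAA)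
      (by
        rw [e1, e2, e4, k2]
        have hAA := mul_self_pos.2 hA0
        have : 0 ≤ (A - Q) * A * (A * B) := mul_nonneg k1.le hcon.le
        have h2 : -(-(A - Q) * B) * (A * A) = (A - Q) * A * (A * B) := by ring
        rw [← h2] at this
        exact nonneg_of_mul_nonneg_left this hAA)
    exact D.apart vS yS uS xS (adj_of hg vg yg hvy) (adj_of hf uf xf hux) huv.symm hvx
      huy.symm hxy.symm hz hz'

lemma inTri_swap {a b c z : Pt} : InTri b a c z ↔ InTri a b c z := by
  have h1 : orient b a c = - orient a b c := orient_swap _ _ _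
  have h2 : orient b a z = - orient a b z := orient_swap _ _ _
  have h3 : orient a c z = - orient c a z := orient_swap _ _ _
  have h4 : orient c b z = - orient b c z := orient_swap _ _ _
  unfold InTri
  rw [h1, h2, h3, h4]
  constructor
  · rintro ⟨k1, k2, k3⟩
    exact ⟨by linarith, by linarith, by linarith⟩
  · rintro ⟨k1, k2, k3⟩
    exact ⟨by linarith, by linarith, by linarith⟩

lemma verts_inj (hS : Sphere S o F) {f g : Face α} (hf : f ∈ o :: F) (hg : g ∈ o :: F)
    (h : f.verts = g.verts) : f = g := by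
  by_contra hne
  have : Std.Symm (fun f g : Face α => f.verts ≠ g.verts) := ⟨fun _ _ h e => h e.symm⟩
  exact hS.distinct.forall hf hg hne h

lemma not_third_third {f : Face α} {u v x y : α} (h1 : u ≠ v ∧ v ≠ x ∧ x ≠ u)
    (h : Third f u v x) (h' : Third f v u y) : False := by
  rcases h with rfl | rfl | rfl <;> rcases h' with h' | h' | h' <;>
    simp only [Prod.mk.injEq] at h' <;> obtain ⟨k1, k2, k3⟩ := h' <;> first
    | exact h1.1 k1
    | exact h1.1 k2
    | exact h1.1 k3
    | exact h1.1 k1.symm
    | exact h1.1 k2.symm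
    | exact h1.1 k3.symm
    | exact h1.2.1 k1
    | exact h1.2.1 k2
    | exact h1.2.1 k3
    | exact h1.2.1 k1.symm
    | exact h1.2.1 k2.symm
    | exact h1.2.1 k3.symm
    | exact h1.2.2 k1
    | exact h1.2.2 k2
    | exact h1.2.2 k3

/-- adjacent faces without vertices inside have the same sign -/
lemma Dr.step (D : Dr S o F p) (hS : Sphere S o F) {f g : Face α} (hf : f ∈ F) (hg : g ∈ F)
    {e : α × α} (he : e ∈ f.dE) (he' : e.swap ∈ g.dE) (h1 : Empt S p f) (h2 : Empt S p g) :
    0 < fo p f * fo p g := by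
  have hf' : f ∈ o :: F := List.mem_cons_of_mem _ hf
  have hg' : g ∈ o :: F := List.mem_cons_of_mem _ hg
  obtain ⟨u, v⟩ := e
  obtain ⟨x, hx⟩ := exists_third he
  obtain ⟨y, hy⟩ := exists_third he'
  simp only [Prod.swap_prod_mk] at hx hy
  have n1 := hx.ne (hS.ne f hf')
  have n2 := hy.ne (hS.ne g hg')
  have hfg : f ≠ g := by
    rintro rfl
    exact not_third_third n1 hx hy
  have hxy : x ≠ y := by
    rintro rfl
    apply hfg
    apply verts_inj hS hf' hg'
    ext z
    rw [hx.verts, hy.verts]
    tauto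
  have xS : x ∈ S := hS.sub f hf' ((hx.verts x).2 (by simp))
  have yS : y ∈ S := hS.sub g hg' ((hy.verts y).2 (by simp))
  have key := D.opposite hS (u := u) (v := v) (x := x) (y := y) hf' hg' (fun z => hx.verts z)
    (fun z => by rw [hy.verts]; tauto) n1.1 n1.2.2.symm n1.2.1 n2.2.1 n2.2.2.symm hxy
    (fun hin => h1 y yS (fun hc => by
      rw [hx.verts] at hc
      rcases hc with rfl | rfl | rfl
      · exact n2.2.1 rfl
      · exact n2.2.2 rfl
      · exact hxy rfl) ((hx.inF _).2 hin))
    (fun hin => h2 x xS (fun hc => by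
      rw [hy.verts] at hc
      rcases hc with rfl | rfl | rfl
      · exact n1.2.1 rfl
      · exact n1.2.2 rfl
      · exact hxy rfl) ((hy.inF _).2 (inTri_swap.2 hin)))
  have e1 : fo p f = orient (p u) (p v) (p x) := hx.fo
  have e2 : fo p g = - orient (p u) (p v) (p y) := by rw [hy.fo, orient_swap]
  have k1 := D.nondeg hS hf'
  have k2 := D.nondeg hS hg'
  rw [← e1] at key
  have : orient (p u) (p v) (p y) = - fo p g := by rw [e2]; ring
  rw [this] at key
  exact lt_of_le_of_ne (by linarith) (mul_ne_zero k1 k2).symm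

lemma Dr.same_sign (D : Dr S o F p) (hS : Sphere S o F) (hE : ∀ f ∈ F, Empt S p f)
    {f g : Face α} (hf : f ∈ F) (hg : g ∈ F) : 0 < fo p f * fo p g := by
  have key := hS.conn f hf g hg
  clear hg
  have : 0 < fo p f * fo p g ∧ g ∈ F := by
    induction key with
    | refl => exact ⟨mul_self_pos.2 (D.nondeg hS (List.mem_cons_of_mem _ hf)), hf⟩
    | tail _ hbc ih =>
      rename_i b c _
      obtain ⟨hb, hc, e, he, he'⟩ := hbc
      refine ⟨?_, hc⟩
      have h1 := D.step hS hb hc he he' (hE b hb) (hE c hc)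
      have h2 := ih.1
      have h3 : 0 < (fo p f * fo p b) * (fo p b * fo p c) := mul_pos h2 h1
      have h4 : 0 < fo p b * fo p b :=
        mul_self_pos.2 (D.nondeg hS (List.mem_cons_of_mem _ hb))
      have h5 : (fo p f * fo p b) * (fo p b * fo p c) =
          (fo p f * fo p c) * (fo p b * fo p b) := by ring
      rw [h5] at h3
      exact pos_of_mul_pos_left h3 h4.le
  exact this.1

lemma sum_fo (hS : Sphere S o F) (p : α → Pt) : (F.map (fo p)).sum = fo p o := by
  have h := hS.cancel (fun a b => (p a).1 * (p b).2 - (p a).2 * (p b).1)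
    (fun a b => by ring)
  have e : ∀ f : Face α, fo p f = (fun a b => (p a).1 * (p b).2 - (p a).2 * (p b).1) f.1 f.2.1 +
      (fun a b => (p a).1 * (p b).2 - (p a).2 * (p b).1) f.2.1 f.2.2 +
      (fun a b => (p a).1 * (p b).2 - (p a).2 * (p b).1) f.2.2 f.1 := by
    intro f
    simp only [fo, orient]
    ring
  rw [e o, ← h]
  congr 1
  apply List.map_congr_left
  intro f _
  exact e f

lemma exists_face (hS : Sphere S o F) : ∃ f, f ∈ F := by
  obtain ⟨v, hv, -⟩ := hS.inner
  obtain ⟨f, hf, -⟩ := hS.cover v hv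
  exact ⟨f, hf⟩

lemma list_sum_pos {l : List (Face α)} (φ : Face α → ℝ) (hl : l ≠ [])
    (h : ∀ f ∈ l, 0 < φ f) : 0 < (l.map φ).sum := by
  induction l with
  | nil => exact absurd rfl hl
  | cons a l ih =>
    rw [List.map_cons, List.sum_cons]
    rcases l with _ | ⟨b, l⟩
    · simpa using h a (by simp)
    · have h1 := h a (by simp)
      have h2 := ih (by simp) (fun f hf => h f (List.mem_cons_of_mem _ hf))
      linarith

/-- if the inner faces are empty then they have the sign of the outer face -/
lemma Dr.sign_o (D : Dr S o F p) (hS : Sphere S o F) (hE : ∀ f ∈ F, Empt S p f)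
    {f : Face α} (hf : f ∈ F) : 0 < fo p f * fo p o := by
  rw [← sum_fo hS p, ← List.sum_map_mul_left]
  apply list_sum_pos
  · exact List.ne_nil_of_mem hf
  · intro g hg
    exact D.same_sign hS hE hf hg

lemma Dr.exists_full (D : Dr S o F p) (hS : Sphere S o F) : ∃ f ∈ o :: F, Full S p f := by
  by_contra hcon
  push Not at hcon
  have hE : ∀ f ∈ o :: F, Empt S p f := fun f hf =>
    (D.full_or_empt hS hf).resolve_left (hcon f hf)
  have ho : o ∈ o :: F := by simp
  obtain ⟨g, hg, he⟩ := hS.rev_o (o.1, o.2.1) (by simp [Face.dE])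
  have hg' : g ∈ o :: F := List.mem_cons_of_mem _ hg
  have hx : Third o o.1 o.2.1 o.2.2 := Or.inl rfl
  obtain ⟨y, hy⟩ := exists_third he
  simp only at hy
  have n1 := hx.ne (hS.ne o ho)
  have n2 := hy.ne (hS.ne g hg')
  have hd := (List.pairwise_cons.1 hS.distinct).1 g hg
  have hxy : o.2.2 ≠ y := by
    intro h
    apply hd
    ext z
    rw [hx.verts, hy.verts, h]
  have xS : o.2.2 ∈ S := hS.sub o ho ((hx.verts _).2 (by simp))
  have yS : y ∈ S := hS.sub g hg' ((hy.verts y).2 (by simp))
  have key := D.opposite hS (u := o.1) (v := o.2.1) (x := o.2.2) (y := y) ho hg'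
    (fun z => hx.verts z) (fun z => hy.verts z) n1.1 n1.2.2.symm n1.2.1 n2.2.2.symm n2.2.1 hxy
    (fun hin => hE o ho y yS (fun hc => by
      rw [hx.verts] at hc
      rcases hc with h | h | h
      · exact n2.2.2 h
      · exact n2.2.1 h.symm
      · exact hxy h.symm) ((hx.inF _).2 hin))
    (fun hin => hE g hg' _ xS (fun hc => by
      rw [hy.verts] at hc
      rcases hc with h | h | h
      · exact n1.2.2 h
      · exact n1.2.1 h.symm
      · exact hxy h) ((hy.inF _).2 hin))
  rw [← hx.fo, ← hy.fo] at key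
  have := D.sign_o hS (fun f hf => hE f (List.mem_cons_of_mem _ hf)) hg
  linarith

lemma core {a b c d e f : Pt}
    (hd : 0 < orient a b c * (orient a b d + orient c a d))
    (he : 0 < orient a b c * (orient a b e + orient c a e))
    (hf : 0 < orient a b c * (orient a b f + orient c a f)) (h : InTri d e f a) : False := by
  obtain ⟨h1, h2, h3⟩ := h
  have id : orient e f a * (orient a b d + orient c a d) +
      orient f d a * (orient a b e + orient c a e) +
      orient d e a * (orient a b f + orient c a f) = 0 := by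
    simp only [orient]; ring
  have k1 := mul_pos h2 hd
  have k2 := mul_pos h3 he
  have k3 := mul_pos h1 hf
  have : (orient d e f * orient e f a) * (orient a b c * (orient a b d + orient c a d)) +
      (orient d e f * orient f d a) * (orient a b c * (orient a b e + orient c a e)) +
      (orient d e f * orient d e a) * (orient a b c * (orient a b f + orient c a f)) =
      (orient d e f * orient a b c) * (orient e f a * (orient a b d + orient c a d) +
      orient f d a * (orient a b e + orient c a e) +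
      orient d e a * (orient a b f + orient c a f)) := by ring
  rw [id, mul_zero] at this
  linarith

lemma corner_not_in {f g : Face α} (hf0 : fo p f ≠ 0) (hfull : Full S p f)
    (hgS : g.verts ⊆ S) {a : α} (ha : a ∈ f.verts) (hag : a ∉ g.verts)
    (hin : InF p g (p a)) : False := by
  -- rotate f so that a is the first corner
  obtain ⟨b, c, hT⟩ : ∃ b c, Third f a b c := by
    simp only [Face.verts, Finset.mem_insert, Finset.mem_singleton] at ha
    rcases ha with rfl | rfl | rfl
    · exact ⟨f.2.1, f.2.2, Or.inl rfl⟩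
    · exact ⟨f.2.2, f.1, Or.inr (Or.inl rfl)⟩
    · exact ⟨f.1, f.2.1, Or.inr (Or.inr rfl)⟩
  have h0 : orient (p a) (p b) (p c) ≠ 0 := by rw [← hT.fo]; exact hf0
  have hDD := mul_self_pos.2 h0
  have key : ∀ w ∈ S, w ≠ a →
      0 < orient (p a) (p b) (p c) * (orient (p a) (p b) (p w) + orient (p c) (p a) (p w)) := by
    intro w hw hwa
    by_cases hwf : w ∈ f.verts
    · rw [hT.verts] at hwf
      rcases hwf with rfl | rfl | rfl
      · exact absurd rfl hwa
      · have e1 : orient (p a) (p w) (p w) = 0 := by simp only [orient]; ring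
        have e2 : orient (p c) (p a) (p w) = orient (p a) (p w) (p c) := by
          simp only [orient]; ring
        rw [e1, e2, zero_add]; exact hDD
      · have e1 : orient (p w) (p a) (p w) = 0 := by simp only [orient]; ring
        rw [e1, add_zero]; exact hDD
    · obtain ⟨k1, k2, k3⟩ := (hT.inF _).1 (hfull w hw hwf)
      rw [mul_add]
      exact add_pos k1 k3
  have g1 : g.1 ∈ g.verts := by simp [Face.verts]
  have g2 : g.2.1 ∈ g.verts := by simp [Face.verts]
  have g3 : g.2.2 ∈ g.verts := by simp [Face.verts]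
  exact core (key g.1 (hgS g1) (fun h => hag (h ▸ g1)))
    (key g.2.1 (hgS g2) (fun h => hag (h ▸ g2)))
    (key g.2.2 (hgS g3) (fun h => hag (h ▸ g3))) hin

lemma verts_card {f : Face α} (hne : f.1 ≠ f.2.1 ∧ f.2.1 ≠ f.2.2 ∧ f.2.2 ≠ f.1) :
    f.verts.card = 3 := by
  unfold Face.verts
  rw [Finset.card_eq_three]
  exact ⟨f.1, f.2.1, f.2.2, hne.1, hne.2.2.symm, hne.2.1, rfl⟩

lemma full_unique {f g : Face α} (hf0 : fo p f ≠ 0) (hf : Full S p f) (hg : Full S p g)
    (hfS : f.verts ⊆ S) (hgS : g.verts ⊆ S)
    (hfne : f.1 ≠ f.2.1 ∧ f.2.1 ≠ f.2.2 ∧ f.2.2 ≠ f.1)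
    (hgne : g.1 ≠ g.2.1 ∧ g.2.1 ≠ g.2.2 ∧ g.2.2 ≠ g.1) : f.verts = g.verts := by
  apply Finset.eq_of_subset_of_card_le
  · intro a ha
    by_contra hag
    exact corner_not_in hf0 hf hgS ha hag (hg a (hfS ha) hag)
  · rw [verts_card hfne, verts_card hgne]

/-- module O1: forced orientations -/
theorem O1 {S : Finset α} {o : Face α} {F1 F2 : List (Face α)} (h1 : Sphere S o F1)
    (h2 : Sphere S o F2) (hd : ∀ f ∈ F1, ∀ g ∈ F2, f.verts ≠ g.verts) {p : α → Pt}
    (h : IsSGEOn S (trE o F1 F2) p) :
    ∃ σ : ℝ, (σ = 1 ∨ σ = -1) ∧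
      (∀ f ∈ o :: (F1 ++ F2), 0 < σ * orient (p f.1) (p f.2.1) (p f.2.2)) ∧
      ∀ v ∈ S, v ∉ o.verts → 0 < σ * orient (p o.1) (p o.2.1) (p v) ∧
        0 < σ * orient (p o.2.1) (p o.2.2) (p v) ∧
        0 < σ * orient (p o.2.2) (p o.1) (p v) := by
  have D1 : Dr S o F1 p := by
    have e : trE o F1 F2 0 = trAdj o F1 := by unfold trE; rw [if_pos rfl]
    refine ⟨h.inj, ?_, ?_⟩
    · have := h.clear 0
      rwa [e] at this
    · have := h.noCross 0
      rwa [e] at this
  have D2 : Dr S o F2 p := by
    have e : trE o F1 F2 1 = trAdj o F2 := by unfold trE; rw [if_neg (by decide)]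
    refine ⟨h.inj, ?_, ?_⟩
    · have := h.clear 1
      rwa [e] at this
    · have := h.noCross 1
      rwa [e] at this
  have o1 : o ∈ o :: F1 := by simp
  have o2 : o ∈ o :: F2 := by simp
  have hfo : Full S p o := by
    obtain ⟨f, hf, hff⟩ := D1.exists_full h1
    obtain ⟨g, hg, hgf⟩ := D2.exists_full h2
    have e : f.verts = g.verts := full_unique (D1.nondeg h1 hf) hff hgf (h1.sub f hf)
      (h2.sub g hg) (h1.ne f hf) (h2.ne g hg)
    rcases List.mem_cons.1 hf with rfl | hf'
    · exact hff
    · rcases List.mem_cons.1 hg with rfl | hg'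
      · exact hgf
      · exact absurd e (hd f hf' g hg')
  have hE : ∀ F : List (Face α), Dr S o F p → Sphere S o F → ∀ f ∈ F, Empt S p f := by
    intro F D hS f hf
    have hf' : f ∈ o :: F := List.mem_cons_of_mem _ hf
    refine (D.full_or_empt hS hf').resolve_left fun hff => ?_
    have e : o.verts = f.verts := full_unique (D.nondeg hS (by simp)) hfo hff
      (hS.sub o (by simp)) (hS.sub f hf') (hS.ne o (by simp)) (hS.ne f hf')
    exact (List.pairwise_cons.1 hS.distinct).1 f hf e
  have ho0 : fo p o ≠ 0 := D1.nondeg h1 o1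
  obtain ⟨σ, hσ, hσo⟩ : ∃ σ : ℝ, (σ = 1 ∨ σ = -1) ∧ 0 < σ * fo p o := by
    rcases lt_or_gt_of_ne ho0 with hlt | hgt
    · exact ⟨-1, Or.inr rfl, by linarith⟩
    · exact ⟨1, Or.inl rfl, by linarith⟩
  have tr : ∀ t : ℝ, 0 < t * fo p o → 0 < σ * t := by
    intro t ht
    have k := mul_pos hσo ht
    have e : σ * fo p o * (t * fo p o) = (σ * t) * (fo p o * fo p o) := by ring
    rw [e] at k
    exact pos_of_mul_pos_left k (mul_self_pos.2 ho0).le
  refine ⟨σ, hσ, ?_, ?_⟩
  · intro f hf
    rcases List.mem_cons.1 hf with rfl | hf'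
    · exact hσo
    · rcases List.mem_append.1 hf' with hf1 | hf1
      · exact tr _ (D1.sign_o h1 (hE F1 D1 h1) hf1)
      · exact tr _ (D2.sign_o h2 (hE F2 D2 h2) hf1)
  · intro v hv hvo
    obtain ⟨k1, k2, k3⟩ := hfo v hv hvo
    refine ⟨tr _ ?_, tr _ ?_, tr _ ?_⟩
    · rw [mul_comm]; exact k1
    · rw [mul_comm]; exact k2
    · rw [mul_comm]; exact k3

end Pool.Agent.helper10.SgeO1
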