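import Mathlib

namespace Pool.Agent.helper10.BogH3

open NumberField Module IntermediateField Polynomial

variable {Ω : Type*} [Field Ω] [CharZero Ω]

/-- An automorphism over `A` fixing `t` fixes `A ⊔ ℚ⟮t⟯`. -/
theorem fix_of_mem {A : IntermediateField ℚ Ω} (τ : Ω ≃ₐ[A] Ω) {t x : Ω} (ht : τ t = t)
    (hx : x ∈ A ⊔ ℚ⟮t⟯) : τ x = x := by
  let τ' : Ω ≃ₐ[ℚ] Ω := τ.restrictScalars ℚ
  have h1 : A ⊔ ℚ⟮t⟯ ≤ fixedField (Subgroup.zpowers τ') := by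
    rw [sup_le_iff]
    constructor
    · intro a ha
      rw [IntermediateField.mem_fixedField_iff]
      intro f hf
      have h2 : τ' ∈ fixingSubgroup A := by
        rw [IntermediateField.mem_fixingSubgroup_iff]
        intro y hy
        exact τ.commutes ⟨y, hy⟩
      have h3 : f ∈ fixingSubgroup A := by
        have := (Subgroup.zpowers_le (H := fixingSubgroup A)).2 h2
        exact this hf
      exact (IntermediateField.mem_fixingSubgroup_iff _ _).1 h3 a ha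
    · rw [adjoin_simple_le_iff, IntermediateField.mem_fixedField_iff]
      intro f hf
      have h2 : τ' ∈ MulAction.stabilizer (Ω ≃ₐ[ℚ] Ω) t := by
        rw [MulAction.mem_stabilizer_iff]
        exact ht
      have h3 : f ∈ MulAction.stabilizer (Ω ≃ₐ[ℚ] Ω) t := by
        have := (Subgroup.zpowers_le (H := MulAction.stabilizer (Ω ≃ₐ[ℚ] Ω) t)).2 h2
        exact this hf
      exact h3
  exact (IntermediateField.mem_fixedField_iff _ _).1 (h1 hx) τ' (Subgroup.mem_zpowers τ')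

theorem mem_of_mem_adjoin [IsAlgClosed Ω] [Algebra.IsAlgebraic ℚ Ω] {N' F : IntermediateField ℚ Ω}
    [FiniteDimensional ℚ N'] [FiniteDimensional ℚ F] [Normal ℚ N']
    (hω : ∀ z : Ω, z ^ 3 = 1 → z ∈ N') {α : Ω} (hα0 : α ≠ 0) (htF : α ^ 3 + (α ^ 3)⁻¹ ∈ F)
    (hdeg : finrank ℚ ↥(F ⊔ ℚ⟮α + α⁻¹⟯) = 3 * finrank ℚ F)
    (h1 : α ^ 3 ∉ N' ⊔ F) (h3 : α ∈ (N' ⊔ F) ⊔ ℚ⟮α ^ 3⟯) : α + α⁻¹ ∈ N' ⊔ F := by
  have : Algebra.IsAlgebraic ↥(N' ⊔ F) Ω := Algebra.IsAlgebraic.tower_top (K := ℚ) ↥(N' ⊔ F)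
  have : Algebra.IsAlgebraic ↥F Ω := Algebra.IsAlgebraic.tower_top (K := ℚ) ↥F
  have : IsAlgClosure ↥(N' ⊔ F) Ω := ⟨inferInstance, inferInstance⟩
  have : IsAlgClosure ↥F Ω := ⟨inferInstance, inferInstance⟩
  have : IsGalois ↥(N' ⊔ F) Ω := inferInstance
  have : IsGalois ↥F Ω := inferInstance
  have ht0 : α ^ 3 ≠ 0 := pow_ne_zero 3 hα0
  have hcA : α ^ 3 + (α ^ 3)⁻¹ ∈ N' ⊔ F := (le_sup_right : F ≤ N' ⊔ F) htF
  -- every automorphism over `A` sends `t` to `t` or `t⁻¹`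
  have hdich : ∀ σ : Ω ≃ₐ[↥(N' ⊔ F)] Ω, σ (α ^ 3) = α ^ 3 ∨ σ (α ^ 3) = (α ^ 3)⁻¹ := by
    intro σ
    have e1 : σ (α ^ 3 + (α ^ 3)⁻¹) = α ^ 3 + (α ^ 3)⁻¹ := σ.commutes ⟨_, hcA⟩
    rw [map_add, map_inv₀] at e1
    set s := σ (α ^ 3) with hs
    have hs0 : s ≠ 0 := by
      rw [hs]; exact (map_ne_zero σ).2 ht0
    have e2 : (s - α ^ 3) * (s - (α ^ 3)⁻¹) = 0 := by
      have e3 : (s - α ^ 3) * (s - (α ^ 3)⁻¹) = s * ((s + s⁻¹) - (α ^ 3 + (α ^ 3)⁻¹)) := by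
        field_simp
        ring
      rw [e3, e1, sub_self, mul_zero]
    rcases mul_eq_zero.1 e2 with h | h
    · left; exact sub_eq_zero.1 h
    · right; exact sub_eq_zero.1 h
  -- step 1
  obtain ⟨σ, hσ⟩ : ∃ σ : Ω ≃ₐ[↥(N' ⊔ F)] Ω, σ (α ^ 3) ≠ α ^ 3 := by
    by_contra hcon
    push Not at hcon
    have h4 := (InfiniteGalois.mem_range_algebraMap_iff_fixed (k := ↥(N' ⊔ F)) (α ^ 3)).2 hcon
    obtain ⟨y, hy⟩ := h4
    apply h1
    rw [← hy]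
    exact y.2
  have hσt : σ (α ^ 3) = (α ^ 3)⁻¹ := (hdich σ).resolve_left hσ
  -- step 2
  obtain ⟨z, hz⟩ : ∃ z : Ω, z = σ α * α := ⟨_, rfl⟩
  have hz3 : z ^ 3 = 1 := by
    rw [hz, mul_pow, ← map_pow, hσt, inv_mul_cancel₀ ht0]
  have hz0 : z ≠ 0 := by
    rintro rfl
    simp at hz3
  have hzA : z ∈ N' ⊔ F := (le_sup_left : N' ≤ N' ⊔ F) (hω z hz3)
  have hσz : σ z = z := σ.commutes ⟨z, hzA⟩
  have hσα : σ α = z * α⁻¹ := by
    rw [hz]; field_simp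
  have hα'0 : z * α ≠ 0 := mul_ne_zero hz0 hα0
  have hσα' : σ (z * α) = (z * α)⁻¹ := by
    rw [map_mul, hσz, hσα]
    have : z * (z * α⁻¹) * (z * α) = 1 := by
      have : z * (z * α⁻¹) * (z * α) = z ^ 3 * (α⁻¹ * α) := by ring
      rw [this, hz3, inv_mul_cancel₀ hα0, one_mul]
    exact eq_inv_of_mul_eq_one_left this
  have hσu' : σ (z * α + (z * α)⁻¹) = z * α + (z * α)⁻¹ := by
    rw [map_add, map_inv₀, hσα', inv_inv, add_comm]
  -- step 3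
  have hu'mem : z * α + (z * α)⁻¹ ∈ (N' ⊔ F) ⊔ ℚ⟮α ^ 3⟯ := by
    have hzm : z ∈ (N' ⊔ F) ⊔ ℚ⟮α ^ 3⟯ := (le_sup_left : N' ⊔ F ≤ _) hzA
    exact add_mem (mul_mem hzm h3) (inv_mem (mul_mem hzm h3))
  have hu'A : z * α + (z * α)⁻¹ ∈ N' ⊔ F := by
    have h5 : ∀ τ : Ω ≃ₐ[↥(N' ⊔ F)] Ω, τ (z * α + (z * α)⁻¹) = z * α + (z * α)⁻¹ := by
      intro τ
      rcases hdich τ with h | h
      · exact fix_of_mem τ h hu'mem
      · have h6 : (τ.trans σ.symm) (α ^ 3) = α ^ 3 := by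
          rw [AlgEquiv.trans_apply, h, ← hσt, AlgEquiv.symm_apply_apply]
        have h7 := fix_of_mem (τ.trans σ.symm) h6 hu'mem
        rw [AlgEquiv.trans_apply] at h7
        have h8 := congrArg σ h7
        rw [AlgEquiv.apply_symm_apply, hσu'] at h8
        exact h8
    obtain ⟨y, hy⟩ := (InfiniteGalois.mem_range_algebraMap_iff_fixed (k := ↥(N' ⊔ F)) _).2 h5
    rw [← hy]
    exact y.2
  -- step 4
  have hcub : ∀ β : Ω, β ≠ 0 → β ^ 3 = α ^ 3 →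
      (β + β⁻¹) ^ 3 - 3 * (β + β⁻¹) - (α ^ 3 + (α ^ 3)⁻¹) = 0 := by
    intro β hβ hβ3
    rw [← hβ3]
    field_simp
    ring
  obtain ⟨p, hp⟩ : ∃ p : (↥F)[X], p = X ^ 3 - C 3 * X - C ⟨α ^ 3 + (α ^ 3)⁻¹, htF⟩ := ⟨_, rfl⟩
  have hpev : ∀ β : Ω, β ≠ 0 → β ^ 3 = α ^ 3 → aeval (β + β⁻¹) p = 0 := by
    intro β hβ hβ3
    rw [hp]
    have := hcub β hβ hβ3
    simp only [map_sub, map_pow, aeval_X, map_mul, aeval_C]
    rw [show (algebraMap ↥F Ω) 3 = 3 from map_ofNat _ 3]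
    exact this
  have hpdeg : p.natDegree = 3 := by
    rw [hp]
    compute_degree!
  have hpmonic : p.Monic := by
    rw [hp]
    monicity!
  have hint : IsIntegral ↥F (α + α⁻¹) := (Algebra.IsAlgebraic.isAlgebraic _).isIntegral
  have hmindeg : (minpoly ↥F (α + α⁻¹)).natDegree = 3 := by
    rw [← IntermediateField.adjoin.finrank hint]
    have h9 : finrank ℚ ↥((↥F)⟮α + α⁻¹⟯.restrictScalars ℚ) = finrank ℚ F * finrank ↥F ↥(↥F)⟮α + α⁻¹⟯ := by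
      exact (Module.finrank_mul_finrank ℚ ↥F ↥(↥F)⟮α + α⁻¹⟯).symm
    have h10 : (↥F)⟮α + α⁻¹⟯.restrictScalars ℚ = F ⊔ ℚ⟮α + α⁻¹⟯ := by
      exact restrictScalars_adjoin_eq_sup ℚ F {α + α⁻¹}
    rw [h10, hdeg] at h9
    have h11 : 0 < finrank ℚ F := finrank_pos
    have h12 : finrank ℚ F * 3 = finrank ℚ F * finrank ↥F ↥(↥F)⟮α + α⁻¹⟯ := by
      rw [← h9, mul_comm]
    exact (Nat.eq_of_mul_eq_mul_left h11 h12).symm
  have hmin : minpoly ↥F (α + α⁻¹) = p := by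
    have hdvd : minpoly ↥F (α + α⁻¹) ∣ p := minpoly.dvd _ _ (hpev α hα0 rfl)
    exact (Polynomial.eq_of_monic_of_dvd_of_natDegree_le (minpoly.monic hint) hpmonic hdvd
      (by rw [hpdeg, hmindeg])).symm
  have hroot : aeval (z * α + (z * α)⁻¹) (minpoly ↥F (α + α⁻¹)) = 0 := by
    rw [hmin]
    exact hpev (z * α) hα'0 (by rw [mul_pow, hz3, one_mul])
  obtain ⟨ρ, hρ⟩ := minpoly.exists_algEquiv_of_root (L := Ω) hint.isAlgebraic hroot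
  have : IsAlgClosure ℚ Ω := ⟨inferInstance, inferInstance⟩
  have : Normal ℚ Ω := inferInstance
  have hNn : Normal ℚ N' := by assumption
  have hmap : (N' ⊔ F).map (ρ.restrictScalars ℚ : Ω →ₐ[ℚ] Ω) ≤ N' ⊔ F := by
    rw [IntermediateField.map_sup]
    apply sup_le
    · exact ((normal_iff_forall_map_le.1 hNn) _).trans le_sup_left
    · rintro _ ⟨y, hy, rfl⟩
      have : ρ y = y := ρ.commutes ⟨y, hy⟩
      have h13 : y ∈ N' ⊔ F := (le_sup_right : F ≤ N' ⊔ F) hy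
      change ρ y ∈ N' ⊔ F
      rw [this]
      exact h13
  rw [← hρ]
  exact hmap ⟨_, hu'A, rfl⟩

end Pool.Agent.helper10.BogH3
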